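import Pool.Agent.Lib_helper24.G4I.DER
import Pool.Agent.Lib_helper38.G4I.MUL
import Pool.Agent.Lib_helper44.G4I.Defs
import Pool.Agent.Lib_helper77.G4I.LOC
import Pool.Agent.Lib_helper89.G4I.LD

/-!
# Blocks MAJ and GBD
-/

namespace Pool.Agent.G4I

open NumberField NumberField.InfinitePlace Complex MeasureTheory Filter Topology
open Pool.Agent.HZ
open scoped Pointwise

variable {K : Type} [Field K] [NumberField K]

theorem maj_Lg_one [IsGalois ℚ K] (ψ : Ideal (𝓞 K) →* ℂ) (h1 : ∀ 𝔞, ‖ψ 𝔞‖ ≤ 1) :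
    Lg ψ 1 = 0 := by
  obtain ⟨a, b, _, d⟩ := loc_ineq_pr ψ h1 1
  rw [ArithmeticFunction.vonMangoldt_apply_one, mul_zero] at d
  exact Complex.ext (le_antisymm d b) a

theorem maj_A_one [IsGalois ℚ K] (ψ : Ideal (𝓞 K) →* ℂ) (h1 : ∀ 𝔞, ‖ψ 𝔞‖ ≤ 1) :
    isum (fun D => LK D * ψ D) 1 = 0 := by
  obtain ⟨_, _, c, _⟩ := loc_ineq_pr ψ h1 1
  rw [ArithmeticFunction.vonMangoldt_apply_one, zero_mul] at c
  have : ‖isum (fun D => LK D * ψ D) 1‖ = 0 := by
    have := sq_nonneg ‖isum (fun D => LK D * ψ D) 1‖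
    exact pow_eq_zero_iff (two_ne_zero) |>.1 (le_antisymm c this)
  exact norm_eq_zero.1 this

theorem maj_snd_lt {n : ℕ} {x : ℕ × ℕ} (hx : x ∈ n.divisorsAntidiagonal) (h : x.1 ≠ 1) :
    x.2 < n := by
  obtain ⟨h1, h2⟩ := Nat.mem_divisorsAntidiagonal.1 hx
  have h3 : x.1 ≠ 0 := by
    rintro h3; rw [h3, zero_mul] at h1; exact h2 h1.symm
  have h4 : x.2 ≠ 0 := by
    rintro h3; rw [h3, mul_zero] at h1; exact h2 h1.symm
  rw [← h1]
  have : 2 ≤ x.1 := by omega
  nlinarith [Nat.pos_of_ne_zero h4]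

theorem maj_pr [IsGalois ℚ K] (ψ : Ideal (𝓞 K) →* ℂ) (h1 : ∀ 𝔞, ‖ψ 𝔞‖ ≤ 1) (n : ℕ) :
    (gfun ψ n).im = 0 ∧ ‖isum ψ n‖ ^ 2 ≤ (gfun ψ n).re := by
  induction n using Nat.strong_induction_on with
  | _ n ih =>
  rcases Nat.lt_or_ge n 2 with hn | hn
  · interval_cases n
    · rw [ArithmeticFunction.map_zero, isum_zero]
      simp
    · have e1 : gfun ψ 1 = 1 := (gfun_mult_pr ψ).1
      have e2 : isum ψ 1 = 1 := (isum_mult_pr ψ).1
      rw [e1, e2]
      simp
  · have hlog : 0 < Real.log n := Real.log_pos (by exact_mod_cast hn)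
    have hg := log_gfun_pr ψ n
    have ha := log_isum_pr ψ n
    have hloc := fun d => loc_ineq_pr ψ h1 d
    have hL1 := maj_Lg_one ψ h1
    have hA1 := maj_A_one ψ h1
    -- the imaginary part
    have him : (gfun ψ n).im = 0 := by
      have h2 := congrArg Complex.im hg
      rw [Complex.im_ofReal_mul, Complex.im_sum] at h2
      rw [Finset.sum_eq_zero] at h2
      · rcases mul_eq_zero.1 h2 with h3 | h3
        · exact absurd h3 hlog.ne'
        · exact h3
      · intro x hx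
        by_cases hx1 : x.1 = 1
        · rw [hx1, hL1, zero_mul, Complex.zero_im]
        · rw [Complex.mul_im, (hloc x.1).1, (ih x.2 (maj_snd_lt hx hx1)).1]
          ring
    refine ⟨him, ?_⟩
    -- the real part
    have hre : Real.log n * (gfun ψ n).re =
        ∑ x ∈ n.divisorsAntidiagonal, (Lg ψ x.1).re * (gfun ψ x.2).re := by
      have h2 := congrArg Complex.re hg
      rw [Complex.re_ofReal_mul, Complex.re_sum] at h2
      rw [h2]
      refine Finset.sum_congr rfl fun x hx => ?_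
      rw [Complex.mul_re, (hloc x.1).1]
      ring
    have hnorm : Real.log n * ‖isum ψ n‖ ≤
        ∑ x ∈ n.divisorsAntidiagonal, ‖isum (fun D => LK D * ψ D) x.1‖ * ‖isum ψ x.2‖ := by
      have h2 := congrArg norm ha
      rw [norm_mul, Complex.norm_real, Real.norm_of_nonneg hlog.le] at h2
      rw [h2]
      refine (norm_sum_le _ _).trans (le_of_eq ?_)
      exact Finset.sum_congr rfl fun x _ => norm_mul _ _
    have hcs : (∑ x ∈ n.divisorsAntidiagonal,
        ‖isum (fun D => LK D * ψ D) x.1‖ * ‖isum ψ x.2‖) ^ 2 ≤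
        (∑ x ∈ n.divisorsAntidiagonal, ArithmeticFunction.vonMangoldt x.1) *
        ∑ x ∈ n.divisorsAntidiagonal, (Lg ψ x.1).re * ‖isum ψ x.2‖ ^ 2 := by
      refine Finset.sum_sq_le_sum_mul_sum_of_sq_le_mul _ ?_ ?_ ?_
      · intro x _; exact ArithmeticFunction.vonMangoldt_nonneg
      · intro x _; exact mul_nonneg (hloc x.1).2.1 (sq_nonneg _)
      · intro x _
        rw [mul_pow, ← mul_assoc]
        exact mul_le_mul_of_nonneg_right (hloc x.1).2.2.1 (sq_nonneg _)
    have hvm : ∑ x ∈ n.divisorsAntidiagonal, ArithmeticFunction.vonMangoldt x.1 = Real.log n := by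
      rw [Nat.sum_divisorsAntidiagonal (f := fun d _ => ArithmeticFunction.vonMangoldt d)]
      exact ArithmeticFunction.vonMangoldt_sum
    have hle : ∑ x ∈ n.divisorsAntidiagonal, (Lg ψ x.1).re * ‖isum ψ x.2‖ ^ 2 ≤
        Real.log n * (gfun ψ n).re := by
      rw [hre]
      refine Finset.sum_le_sum fun x hx => ?_
      by_cases hx1 : x.1 = 1
      · rw [hx1, hL1, Complex.zero_re, zero_mul, zero_mul]
      · exact mul_le_mul_of_nonneg_left (ih x.2 (maj_snd_lt hx hx1)).2 (hloc x.1).2.1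
    have hfin : (Real.log n * ‖isum ψ n‖) ^ 2 ≤ Real.log n * (Real.log n * (gfun ψ n).re) := by
      refine (pow_le_pow_left₀ (by positivity) hnorm 2).trans (hcs.trans ?_)
      rw [hvm]
      exact mul_le_mul_of_nonneg_left hle hlog.le
    have h5 : Real.log n ^ 2 * ‖isum ψ n‖ ^ 2 ≤ Real.log n ^ 2 * (gfun ψ n).re := by
      calc Real.log n ^ 2 * ‖isum ψ n‖ ^ 2 = (Real.log n * ‖isum ψ n‖) ^ 2 := by ring
        _ ≤ _ := hfin
        _ = _ := by ring
    exact le_of_mul_le_mul_left h5 (by positivity)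

/-- the hockey stick identity -/
theorem gbd_hockey (M k : ℕ) : ∑ i ∈ Finset.range (k + 1), (i + M).choose i =
    (k + 1 + M).choose k := by
  induction k with
  | zero => simp
  | succ k ih =>
    rw [Finset.sum_range_succ, ih]
    have e1 : k + 1 + 1 + M = (k + 1 + M) + 1 := by ring
    rw [e1, Nat.choose_succ_succ]

theorem gbd_binom (M k : ℕ) :
    M * ∑ i ∈ Finset.range (k + 1), (i + M).choose i ≤ (k + 1) * (k + 1 + M).choose (k + 1) := by
  rw [gbd_hockey]
  have h := Nat.choose_succ_right_eq (k + 1 + M) k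
  have e : k + 1 + M - k = M + 1 := by omega
  rw [e] at h
  nlinarith [h]

theorem gfun_pow_le_pr [IsGalois ℚ K] (ψ : Ideal (𝓞 K) →* ℂ) (h1 : ∀ 𝔞, ‖ψ 𝔞‖ ≤ 1) {p : ℕ}
    (hp : p.Prime) (k : ℕ) :
    (gfun ψ (p ^ k)).re ≤ ((k + (Module.finrank ℚ K) ^ 2).choose k : ℝ) := by
  induction k using Nat.strong_induction_on with
  | _ k ih =>
  rcases k with _ | k
  · have e1 : gfun ψ 1 = 1 := (gfun_mult_pr ψ).1
    rw [pow_zero, e1]
    simp
  · set M : ℕ := Module.finrank ℚ K ^ 2 with hM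
    have hlog : 0 < Real.log p := Real.log_pos (by exact_mod_cast hp.one_lt)
    have hloc := fun d => loc_ineq_pr ψ h1 d
    have h2 := congrArg Complex.re (log_gfun_pr ψ (p ^ (k + 1)))
    rw [Complex.re_ofReal_mul, Complex.re_sum] at h2
    have h3 : ∀ x ∈ (p ^ (k + 1)).divisorsAntidiagonal, (Lg ψ x.1 * gfun ψ x.2).re =
        (Lg ψ x.1).re * (gfun ψ x.2).re := by
      intro x _
      rw [Complex.mul_re, (hloc x.1).1]
      ring
    have hp0 : 0 < p := hp.pos
    rw [Finset.sum_congr rfl h3,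
      Nat.sum_divisorsAntidiagonal' (f := fun a b => (Lg ψ a).re * (gfun ψ b).re),
      Nat.sum_divisors_prime_pow hp, Finset.sum_range_succ, Nat.div_self (pow_pos hp0 _),
      maj_Lg_one ψ h1, Complex.zero_re, zero_mul, add_zero] at h2
    have h4 : ∑ i ∈ Finset.range (k + 1), (Lg ψ (p ^ (k + 1) / p ^ i)).re * (gfun ψ (p ^ i)).re ≤
        ∑ i ∈ Finset.range (k + 1), (M * Real.log p) * ((i + M).choose i : ℝ) := by
      refine Finset.sum_le_sum fun i hi => ?_
      have hik : i < k + 1 := Finset.mem_range.1 hi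
      rw [Nat.pow_div hik.le hp0]
      have h5 : (Lg ψ (p ^ (k + 1 - i))).re ≤ M * Real.log p := by
        refine ((hloc _).2.2.2).trans (le_of_eq ?_)
        rw [ArithmeticFunction.vonMangoldt_apply_pow (by omega),
          ArithmeticFunction.vonMangoldt_apply_prime hp, hM]
        push_cast
        rfl
      have h6 : 0 ≤ (gfun ψ (p ^ i)).re := (sq_nonneg _).trans (maj_pr ψ h1 _).2
      refine (mul_le_mul_of_nonneg_right h5 h6).trans ?_
      exact mul_le_mul_of_nonneg_left (ih i hik) (by positivity)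
    rw [← Finset.mul_sum] at h4
    have h7 : (M : ℝ) * ∑ i ∈ Finset.range (k + 1), ((i + M).choose i : ℝ) ≤
        (k + 1) * ((k + 1 + M).choose (k + 1) : ℝ) := by
      exact_mod_cast gbd_binom M k
    rw [← h2] at h4
    have h8 : Real.log ((p ^ (k + 1) : ℕ) : ℝ) = (k + 1) * Real.log p := by
      rw [Nat.cast_pow, Real.log_pow]
      push_cast
      ring
    rw [h8] at h4
    have h9 : ((k + 1) * Real.log p) * (gfun ψ (p ^ (k + 1))).re ≤
        ((k + 1) * Real.log p) * ((k + 1 + M).choose (k + 1) : ℝ) := by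
      refine h4.trans ?_
      calc (M : ℝ) * Real.log p * ∑ i ∈ Finset.range (k + 1), ((i + M).choose i : ℝ) =
          Real.log p * (M * ∑ i ∈ Finset.range (k + 1), ((i + M).choose i : ℝ)) := by ring
        _ ≤ Real.log p * ((k + 1) * ((k + 1 + M).choose (k + 1) : ℝ)) :=
          mul_le_mul_of_nonneg_left h7 hlog.le
        _ = _ := by ring
    exact le_of_mul_le_mul_left h9 (by positivity)

end Pool.Agent.G4I
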