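import Pool.Agent.Lib_helper24.G4I.SER
import Pool.Agent.Lib_helper44.G4I.Defs
import Pool.Agent.Lib_helper77.G4I.BAS

/-!
# Block ZKB
-/

namespace Pool.Agent.G4I

open NumberField NumberField.InfinitePlace Complex MeasureTheory Filter Topology
open Pool.Agent.HZ
open scoped Pointwise

variable {K : Type} [Field K] [NumberField K]

theorem zkb_triv_top (𝔞 : Ideal (𝓞 K)) (h : 𝔞 ≠ ⊥) : triv (⊤ : Ideal (𝓞 K)) 𝔞 = 1 := by
  classical
  show (if 𝔞 ≠ ⊥ ∧ IsCoprime 𝔞 (⊤ : Ideal (𝓞 K)) then (1 : ℂ) else 0) = 1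
  rw [if_pos]
  refine ⟨h, ?_⟩
  rw [← Ideal.one_eq_top]
  exact isCoprime_one_right

theorem zkb_triv_bot : triv (⊤ : Ideal (𝓞 K)) ⊥ = 0 := by
  classical
  show (if (⊥ : Ideal (𝓞 K)) ≠ ⊥ ∧ IsCoprime ⊥ (⊤ : Ideal (𝓞 K)) then (1 : ℂ) else 0) = 0
  rw [if_neg]
  rintro ⟨h, _⟩
  exact h rfl

theorem zkb_triv_norm (𝔮 𝔞 : Ideal (𝓞 K)) : ‖triv 𝔮 𝔞‖ ≤ 1 := by
  classical
  show ‖(if 𝔞 ≠ ⊥ ∧ IsCoprime 𝔞 𝔮 then (1 : ℂ) else 0)‖ ≤ 1
  split_ifs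
  · rw [norm_one]
  · rw [norm_zero]; exact zero_le_one

theorem zkb_isum (n : ℕ) : isum (triv (⊤ : Ideal (𝓞 K))) n = ((nIdeals K n).card : ℂ) := by
  unfold isum
  rw [Finset.sum_congr rfl (g := fun _ => (1 : ℂ))]
  · rw [Finset.sum_const, nsmul_eq_mul, mul_one]
  · intro 𝔞 h
    exact zkb_triv_top 𝔞 (mem_nIdeals_pr.1 h).2

theorem zkb_card {n : ℕ} (hn : n ≠ 0) :
    (nIdeals K n).card = Nat.card {I : Ideal (𝓞 K) // Ideal.absNorm I = n} := by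
  classical
  have h : {I : Ideal (𝓞 K) | Ideal.absNorm I = n} = ↑(nIdeals K n) := by
    ext I
    simp only [Set.mem_setOf_eq, Finset.mem_coe, mem_nIdeals_pr]
    refine ⟨fun h => ⟨h, ?_⟩, fun h => h.1⟩
    rintro rfl
    rw [Ideal.absNorm_bot] at h
    exact hn h.symm
  have h2 : Nat.card {I : Ideal (𝓞 K) // Ideal.absNorm I = n} =
      Nat.card ((nIdeals K n : Set (Ideal (𝓞 K)))) := by
    rw [← h]; rfl
  rw [h2, Nat.card_coe_set_eq, Set.ncard_coe_finset]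

/-- the real series -/
theorem zkb_real {σ : ℝ} (hσ : 1 < σ) :
    (Summable fun n : ℕ => if n = 0 then (0 : ℝ) else ((nIdeals K n).card : ℝ) / (n : ℝ) ^ σ) ∧
    LI (triv (⊤ : Ideal (𝓞 K))) σ =
      ((∑' n : ℕ, if n = 0 then (0 : ℝ) else ((nIdeals K n).card : ℝ) / (n : ℝ) ^ σ : ℝ) : ℂ) := by
  obtain ⟨h1, h2⟩ := li_series_pr (K := K) zkb_triv_bot (zkb_triv_norm ⊤) (s := (σ : ℂ))
    (by rw [Complex.ofReal_re]; exact hσ)
  have hterm : ∀ n : ℕ, LSeries.term (isum (triv (⊤ : Ideal (𝓞 K)))) σ n =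
      ((if n = 0 then (0 : ℝ) else ((nIdeals K n).card : ℝ) / (n : ℝ) ^ σ : ℝ) : ℂ) := by
    intro n
    rcases eq_or_ne n 0 with rfl | hn
    · rw [LSeries.term_zero, if_pos rfl, Complex.ofReal_zero]
    · rw [LSeries.term_of_ne_zero hn, if_neg hn, zkb_isum, Complex.ofReal_div,
        Complex.ofReal_cpow (Nat.cast_nonneg n)]
      push_cast
      rfl
  constructor
  · have h3 := h1
    unfold LSeriesSummable at h3
    rw [funext hterm] at h3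
    exact Complex.summable_ofReal.1 h3
  · rw [← h2, LSeries, Complex.ofReal_tsum]
    exact tsum_congr hterm

theorem zkb_nonneg (σ : ℝ) (n : ℕ) :
    0 ≤ if n = 0 then (0 : ℝ) else ((nIdeals K n).card : ℝ) / (n : ℝ) ^ σ := by
  split_ifs
  · exact le_rfl
  · positivity

theorem zkb_norm {σ : ℝ} (hσ : 1 < σ) : ‖LI (triv (⊤ : Ideal (𝓞 K))) σ‖ =
    ∑' n : ℕ, if n = 0 then (0 : ℝ) else ((nIdeals K n).card : ℝ) / (n : ℝ) ^ σ := by
  rw [(zkb_real hσ).2, Complex.norm_real, Real.norm_of_nonneg]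
  exact tsum_nonneg (zkb_nonneg σ)

theorem zkb_anti {σ τ : ℝ} (hσ : 1 < σ) (h : σ ≤ τ) :
    ‖LI (triv (⊤ : Ideal (𝓞 K))) τ‖ ≤ ‖LI (triv (⊤ : Ideal (𝓞 K))) σ‖ := by
  rw [zkb_norm hσ, zkb_norm (hσ.trans_le h)]
  refine (zkb_real (K := K) (hσ.trans_le h)).1.tsum_le_tsum ?_ (zkb_real hσ).1
  intro n
  split_ifs with hn
  · exact le_rfl
  · have hn1 : (1 : ℝ) ≤ n := by exact_mod_cast Nat.one_le_iff_ne_zero.2 hn
    exact div_le_div_of_nonneg_left (by positivity) (by positivity)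
      (Real.rpow_le_rpow_of_exponent_le hn1 h)

theorem zkb_one_le {σ : ℝ} (hσ : 1 < σ) : 1 ≤ ‖LI (triv (⊤ : Ideal (𝓞 K))) σ‖ := by
  rw [zkb_norm hσ]
  have h := (zkb_real (K := K) hσ).1.le_tsum 1 (fun n _ => zkb_nonneg σ n)
  refine le_trans ?_ h
  rw [if_neg one_ne_zero]
  have h2 : 1 ≤ (nIdeals K 1).card := by
    refine Finset.card_pos.2 ⟨⊤, mem_nIdeals_pr.2 ⟨Ideal.absNorm_top, ?_⟩⟩
    exact top_ne_bot
  have h3 : (1 : ℝ) ≤ (nIdeals K 1).card := by exact_mod_cast h2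
  simpa using h3

theorem zkb_dedekind {σ : ℝ} (hσ : 1 < σ) :
    LI (triv (⊤ : Ideal (𝓞 K))) σ = dedekindZeta K σ := by
  obtain ⟨_, h2⟩ := li_series_pr (K := K) zkb_triv_bot (zkb_triv_norm ⊤) (s := (σ : ℂ))
    (by rw [Complex.ofReal_re]; exact hσ)
  rw [← h2, dedekindZeta]
  refine LSeries_congr (fun {n} hn => ?_) _
  rw [zkb_isum, zkb_card hn]

theorem zk_bound_pr : ∃ C c : ℝ, 0 < c ∧ ∀ σ : ℝ, 1 < σ → σ ≤ 2 →
    c / (σ - 1) ≤ ‖LI (triv (⊤ : Ideal (𝓞 K))) σ‖ ∧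
      ‖LI (triv (⊤ : Ideal (𝓞 K))) σ‖ ≤ C / (σ - 1) := by
  set ρ := dedekindZeta_residue K with hρ
  have hρ0 : 0 < ρ := dedekindZeta_residue_pos K
  have ht := (tendsto_sub_one_mul_dedekindZeta_nhdsGT K).norm
  rw [Complex.norm_real, Real.norm_of_nonneg hρ0.le] at ht
  have he : ∀ᶠ s : ℝ in 𝓝[>] 1, ‖((s : ℂ) - 1) * dedekindZeta K s‖ ∈ Set.Ioo (ρ / 2) (2 * ρ) :=
    ht (Ioo_mem_nhds (by linarith) (by linarith))
  obtain ⟨b, hb1, hb⟩ := (mem_nhdsGT_iff_exists_Ioo_subset).1 he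
  have hb1' : 1 < b := hb1
  have hs0 : 1 < 1 + (b - 1) / 2 := by linarith
  refine ⟨max (2 * ρ) ‖LI (triv (⊤ : Ideal (𝓞 K))) ((1 + (b - 1) / 2 : ℝ) : ℂ)‖,
    min (ρ / 2) ((b - 1) / 2), lt_min (by linarith) (by linarith), ?_⟩
  intro σ h1 h2
  have hσ : 0 < σ - 1 := by linarith
  rcases lt_or_ge σ (1 + (b - 1) / 2) with h3 | h3
  · have h4 := hb (show σ ∈ Set.Ioo 1 b from ⟨h1, by linarith⟩)
    rw [Set.mem_setOf_eq, norm_mul, ← zkb_dedekind h1] at h4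
    have h5 : ‖(σ : ℂ) - 1‖ = σ - 1 := by
      rw [← Complex.ofReal_one, ← Complex.ofReal_sub, Complex.norm_real,
        Real.norm_of_nonneg hσ.le]
    rw [h5] at h4
    constructor
    · rw [div_le_iff₀ hσ]
      have := h4.1
      have := min_le_left (ρ / 2) ((b - 1) / 2)
      linarith [mul_comm (σ - 1) ‖LI (triv (⊤ : Ideal (𝓞 K))) σ‖]
    · rw [le_div_iff₀ hσ]
      have := h4.2
      have := le_max_left (2 * ρ) ‖LI (triv (⊤ : Ideal (𝓞 K))) ((1 + (b - 1) / 2 : ℝ) : ℂ)‖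
      linarith [mul_comm (σ - 1) ‖LI (triv (⊤ : Ideal (𝓞 K))) σ‖]
  · constructor
    · refine le_trans ?_ (zkb_one_le h1)
      rw [div_le_one hσ]
      have := min_le_right (ρ / 2) ((b - 1) / 2)
      linarith
    · refine (zkb_anti hs0 h3).trans ?_
      refine (le_max_right (2 * ρ) _).trans ?_
      rw [le_div_iff₀ hσ]
      have h6 : 0 ≤ max (2 * ρ) ‖LI (triv (⊤ : Ideal (𝓞 K))) ((1 + (b - 1) / 2 : ℝ) : ℂ)‖ :=
        (norm_nonneg _).trans (le_max_right _ _)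
      exact mul_le_of_le_one_right h6 (by linarith)

end Pool.Agent.G4I
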