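import Pool.Agent.Lib_helper16.G4I.MAJ
import Pool.Agent.Lib_helper16.G4I.ZKB
import Pool.Agent.Lib_helper24.G4I.GSER
import Pool.Agent.Lib_helper44.G4I.Defs
import Pool.Agent.Lib_helper62.G4I.THH
import Pool.Agent.Lib_helper92.G4I.BND

/-!
# Block SIG
-/

namespace Pool.Agent.G4I

open NumberField NumberField.InfinitePlace Complex MeasureTheory Filter Topology
open Pool.Agent.HZ
open scoped Pointwise

variable {K : Type} [Field K] [NumberField K]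

theorem sig_norm_le (H : HChar K) (𝔞 : Ideal (𝓞 K)) : ‖H.ψ 𝔞‖ ≤ 1 := by
  by_cases h : IsCoprime 𝔞 H.𝔮
  · rw [H.isHecke.norm_eq_one 𝔞 h]
  · rw [H.isHecke.eq_zero 𝔞 h, norm_zero]
    exact zero_le_one

theorem sig_norm_eq (H : HChar K) {𝔞 : Ideal (𝓞 K)} (h0 : H.ψ 𝔞 ≠ 0) : ‖H.ψ 𝔞‖ = 1 := by
  by_cases h : IsCoprime 𝔞 H.𝔮
  · exact H.isHecke.norm_eq_one 𝔞 h
  · exact absurd (H.isHecke.eq_zero 𝔞 h) h0

theorem sig_bot (H : HChar K) : H.ψ ⊥ = 0 := by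
  refine H.isHecke.eq_zero ⊥ fun h => H.ne_top ?_
  rw [Ideal.isCoprime_iff_sup_eq, bot_sup_eq] at h
  exact h

theorem sig_thet (ψ : Ideal (𝓞 K) →* ℂ) {τ : K ≃ₐ[ℚ] K} (hτ : τ ≠ 1) (𝔞 : Ideal (𝓞 K)) :
    thet ψ τ 𝔞 = ψ 𝔞 * starRingEnd ℂ (ψ (τ • 𝔞)) := by
  classical
  unfold thet
  rw [if_neg hτ]
  rfl

theorem sig_nt (H : HChar K) (hreg : Regular H.ψ) {τ : K ≃ₐ[ℚ] K} (hτ : τ ≠ 1) {H' : HChar K}
    (h : H'.ψ = thet H.ψ τ) : H'.NT := by
  obtain ⟨𝔞, h1, h2, h3⟩ := hreg τ hτ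
  refine ⟨𝔞, ?_, ?_⟩
  · rw [h, sig_thet H.ψ hτ]
    exact mul_ne_zero h1 ((map_ne_zero _).2 h2)
  · rw [h, sig_thet H.ψ hτ]
    intro h4
    apply h3
    have h5 := congrArg (fun z => z * H.ψ (τ • 𝔞)) h4
    simp only [one_mul] at h5
    rw [mul_assoc, ← Complex.normSq_eq_conj_mul_self, Complex.normSq_eq_norm_sq,
      sig_norm_eq H h2] at h5
    rw [← h5]
    norm_num

open Classical in
/-- a bound for each factor -/
theorem sig_factor (H : HChar K) (hreg : Regular H.ψ) (τ : K ≃ₐ[ℚ] K) : ∃ C : ℝ, 0 ≤ C ∧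
    ∀ σ : ℝ, 1 < σ → σ ≤ 2 → ‖LI (thet H.ψ τ) σ‖ ≤ if τ = 1 then C / (σ - 1) else C := by
  by_cases hτ : τ = 1
  · subst hτ
    obtain ⟨C, c, _, h⟩ := zk_bound_pr (K := K)
    refine ⟨max C 0, le_max_right _ _, fun σ h1 h2 => ?_⟩
    rw [if_pos rfl]
    have e : thet H.ψ 1 = triv (⊤ : Ideal (𝓞 K)) := by
      unfold thet
      rw [if_pos rfl]
    rw [e]
    refine ((h σ h1 h2).2).trans ?_
    exact div_le_div_of_nonneg_right (le_max_left _ _) (by linarith)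
  · obtain ⟨H', hH'⟩ := thet_hchar_pr H hτ
    obtain ⟨C, hC⟩ := li_bounded_pr H' (sig_nt H hreg hτ hH')
    refine ⟨max C 0, le_max_right _ _, fun σ h1 h2 => ?_⟩
    rw [if_neg hτ, ← hH']
    exact (hC σ h1 h2).trans (le_max_left _ _)

theorem sig_prod [IsGalois ℚ K] (H : HChar K) (hreg : Regular H.ψ) : ∃ C : ℝ, 0 ≤ C ∧
    ∀ σ : ℝ, 1 < σ → σ ≤ 2 → ‖∏ τ : K ≃ₐ[ℚ] K, LI (thet H.ψ τ) σ‖ ≤ C / (σ - 1) := by
  classical
  choose C hC0 hC using sig_factor H hreg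
  refine ⟨∏ τ : K ≃ₐ[ℚ] K, C τ, Finset.prod_nonneg fun τ _ => hC0 τ, fun σ h1 h2 => ?_⟩
  rw [norm_prod]
  refine (Finset.prod_le_prod (fun τ _ => norm_nonneg _) fun τ _ => hC τ σ h1 h2).trans
    (le_of_eq ?_)
  have h3 : ∀ τ : K ≃ₐ[ℚ] K, (if τ = 1 then C τ / (σ - 1) else C τ) =
      C τ * (if τ = 1 then (σ - 1)⁻¹ else 1) := by
    intro τ
    split_ifs
    · rw [div_eq_mul_inv]
    · rw [mul_one]
  rw [Finset.prod_congr rfl fun τ _ => h3 τ, Finset.prod_mul_distrib, Finset.prod_ite_eq']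
  simp [div_eq_mul_inv]

theorem sig_real [IsGalois ℚ K] (H : HChar K) {σ : ℝ} (hσ : 1 < σ) :
    (Summable fun n : ℕ => if n = 0 then (0 : ℝ) else (gfun H.ψ n).re / (n : ℝ) ^ σ) ∧
    (∑' n : ℕ, if n = 0 then (0 : ℝ) else (gfun H.ψ n).re / (n : ℝ) ^ σ) =
      ‖LSeries (gfun H.ψ) σ‖ := by
  obtain ⟨h1, _⟩ := gfun_series_pr H.ψ (sig_bot H) (sig_norm_le H) (s := (σ : ℂ))
    (by rw [Complex.ofReal_re]; exact hσ)
  have hm := fun n => maj_pr H.ψ (sig_norm_le H) n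
  have hterm : ∀ n : ℕ, LSeries.term (gfun H.ψ) σ n =
      ((if n = 0 then (0 : ℝ) else (gfun H.ψ n).re / (n : ℝ) ^ σ : ℝ) : ℂ) := by
    intro n
    rcases eq_or_ne n 0 with rfl | hn
    · rw [LSeries.term_zero, if_pos rfl, Complex.ofReal_zero]
    · rw [LSeries.term_of_ne_zero hn, if_neg hn, Complex.ofReal_div,
        Complex.ofReal_cpow (Nat.cast_nonneg n)]
      have : ((gfun H.ψ n).re : ℂ) = gfun H.ψ n := Complex.ext rfl (hm n).1.symm
      rw [this]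
      push_cast
      rfl
  constructor
  · have h3 := h1
    unfold LSeriesSummable at h3
    rw [funext hterm] at h3
    exact Complex.summable_ofReal.1 h3
  · rw [LSeries, tsum_congr hterm, ← Complex.ofReal_tsum, Complex.norm_real, Real.norm_of_nonneg]
    refine tsum_nonneg fun n => ?_
    split_ifs
    · exact le_rfl
    · exact div_nonneg ((sq_nonneg _).trans (hm n).2) (by positivity)

theorem sig_pr [IsGalois ℚ K] (H : HChar K) (hreg : Regular H.ψ) : ∃ C : ℝ, ∀ x : ℕ, 2 ≤ x →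
    ∑ n ∈ Finset.Icc 1 x, (gfun H.ψ n).re / n ≤ C * Real.log x := by
  obtain ⟨C, hC0, hC⟩ := sig_prod H hreg
  refine ⟨2 * (Real.exp 1 * C), fun x hx => ?_⟩
  have hx2 : (2 : ℝ) ≤ x := by exact_mod_cast hx
  have hm := fun n => (sq_nonneg _).trans (maj_pr H.ψ (sig_norm_le H) n).2
  set L := Real.log (x + 1) with hL
  have hL1 : 1 < L := by
    rw [hL, Real.lt_log_iff_exp_lt (by linarith)]
    have := Real.exp_one_lt_d9
    linarith
  have hL0 : 0 < L := by linarith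
  have hσ1 : 1 < 1 + 1 / L := by
    have : 0 < 1 / L := by positivity
    linarith
  have hσ2 : 1 + 1 / L ≤ 2 := by
    have : 1 / L ≤ 1 := by
      rw [div_le_one hL0]; exact hL1.le
    linarith
  obtain ⟨hs, hsum⟩ := sig_real H hσ1
  have h1 : ∑ n ∈ Finset.Icc 1 x, (gfun H.ψ n).re / n ≤
      ∑ n ∈ Finset.Icc 1 x, Real.exp 1 *
        (if n = 0 then (0 : ℝ) else (gfun H.ψ n).re / (n : ℝ) ^ (1 + 1 / L)) := by
    refine Finset.sum_le_sum fun n hn => ?_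
    obtain ⟨hn1, hn2⟩ := Finset.mem_Icc.1 hn
    have hn0 : n ≠ 0 := by omega
    have hnp : (0 : ℝ) < n := by exact_mod_cast Nat.pos_of_ne_zero hn0
    rw [if_neg hn0, Real.rpow_add hnp, Real.rpow_one]
    have h2 : (n : ℝ) ^ (1 / L) ≤ Real.exp 1 := by
      rw [Real.rpow_def_of_pos hnp]
      apply Real.exp_le_exp.2
      rw [mul_one_div, div_le_one hL0, hL]
      refine Real.log_le_log hnp ?_
      have : (n : ℝ) ≤ x := by exact_mod_cast hn2
      linarith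
    have h3 : 0 < (n : ℝ) ^ (1 / L) := Real.rpow_pos_of_pos hnp _
    rw [← div_div, ← mul_div_assoc, le_div_iff₀ h3, mul_comm (Real.exp 1)]
    exact mul_le_mul_of_nonneg_left h2 (div_nonneg (hm n) hnp.le)
  refine h1.trans ?_
  rw [← Finset.mul_sum]
  have h4 : ∑ n ∈ Finset.Icc 1 x,
      (if n = 0 then (0 : ℝ) else (gfun H.ψ n).re / (n : ℝ) ^ (1 + 1 / L)) ≤ C * L := by
    refine (hs.sum_le_tsum _ fun n _ => ?_).trans ?_
    · split_ifs
      · exact le_rfl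
      · exact div_nonneg (hm n) (by positivity)
    · rw [hsum, (gfun_series_pr H.ψ (sig_bot H) (sig_norm_le H)
        (s := ((1 + 1 / L : ℝ) : ℂ)) (by rw [Complex.ofReal_re]; exact hσ1)).2]
      refine (hC _ hσ1 hσ2).trans (le_of_eq ?_)
      rw [add_sub_cancel_left, div_div_eq_mul_div, div_one]
  have h5 : L ≤ 2 * Real.log x := by
    have : 2 * Real.log x = Real.log ((x : ℝ) ^ 2) := by
      rw [Real.log_pow]; norm_num
    rw [hL, this]
    refine Real.log_le_log (by linarith) ?_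
    nlinarith
  have h6 : 0 ≤ Real.exp 1 * C := by positivity
  calc Real.exp 1 * ∑ n ∈ Finset.Icc 1 x,
      (if n = 0 then (0 : ℝ) else (gfun H.ψ n).re / (n : ℝ) ^ (1 + 1 / L)) ≤
      Real.exp 1 * (C * L) := mul_le_mul_of_nonneg_left h4 (by positivity)
    _ = (Real.exp 1 * C) * L := by ring
    _ ≤ (Real.exp 1 * C) * (2 * Real.log x) := mul_le_mul_of_nonneg_left h5 h6
    _ = _ := by ring

end Pool.Agent.G4I
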